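import Mathlib
import Pool.Agent.Helper42.MillerSeries

open UpperHalfPlane hiding I
open ModularForm ModularFormClass MatrixGroups EisensteinSeries Filter Topology
open scoped Real

open Pool.Agent.Helper42.Miller

namespace Pool.Agent.Results.MP_86f038_nt.FailsAt304

/-- `f ∈ M_{12ℓ}` is the Miller basis form `f_{12ℓ,m} = q^m + O(q^{ℓ+1})`. -/
def IsMiller (ℓ m : ℕ) (f : ModularForm 𝒮ℒ (12 * (ℓ : ℤ))) : Prop :=
  ∀ n ≤ ℓ, (qExpansion 1 f).coeff n = if n = m then 1 else 0

/-- The orbit of `τ` under `SL₂(ℤ)` meets the arc `{e^{iθ} : θ ∈ [π/2, 2π/3]}`. -/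
def OnArc (τ : ℍ) : Prop :=
  ∃ γ : SL(2, ℤ), ∃ θ ∈ Set.Icc (π / 2) (2 * π / 3),
    ((γ • τ : ℍ) : ℂ) = Complex.exp (θ * Complex.I)

/-- `f` has a zero in the upper half plane that is not on the arc. -/
def HasZeroOffArc {k : ℤ} (f : ModularForm 𝒮ℒ k) : Prop := ∃ τ : ℍ, f τ = 0 ∧ ¬ OnArc τ

/-- The Miller basis form `f_{12ℓ,m}` has a zero that is not on the arc. -/
def MillerOffArc (ℓ m : ℕ) : Prop :=
  ∃ f : ModularForm 𝒮ℒ (12 * (ℓ : ℤ)), IsMiller ℓ m f ∧ HasZeroOffArc f

/-- The numbers `m_0, ..., m_15` of the problem. -/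
def tbl (r : ℕ) : ℕ := [4, 3, 4, 5, 6, 7, 6, 7, 8, 9, 10, 9, 10, 11, 12, 13].getD r 0

/-- The assertion of Q1: for all `ℓ > 30`, with `ℓ = 16 s + r`, `0 ≤ r < 16`, the least `m ≤ ℓ`
for which `f_{12ℓ,m}` has a zero off the arc is `10 s + m_r`, and `f_{12ℓ,m}` has a zero off the
arc for all `m` from this value up to `ℓ - 1`. -/
def Q1 : Prop :=
  ∀ ℓ : ℕ, 30 < ℓ →
    IsLeast {m : ℕ | m ≤ ℓ ∧ MillerOffArc ℓ m} (10 * (ℓ / 16) + tbl (ℓ % 16)) ∧
    ∀ m : ℕ, 10 * (ℓ / 16) + tbl (ℓ % 16) ≤ m → m ≤ ℓ - 1 → MillerOffArc ℓ m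


noncomputable def toC : PowerSeries ℚ →+* PowerSeries ℂ := PowerSeries.map (algebraMap ℚ ℂ)

lemma coeff_toC (φ : PowerSeries ℚ) (n : ℕ) : (toC φ).coeff n = ((φ.coeff n : ℚ) : ℂ) := by
  simp [toC]

lemma qexp_E4 : qExpansion 1 E₄ = toC e4 := by
  ext n
  rw [coeff_toC, EisensteinSeries.E_qExpansion_coeff _ ⟨2, rfl⟩, e4, PowerSeries.coeff_mk,
    show bernoulli 4 = -1 / 30 by decide +kernel]
  split_ifs
  · simp
  · push_cast
    norm_num

lemma qexp_E6 : qExpansion 1 E₆ = toC e6 := by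
  ext n
  rw [coeff_toC, EisensteinSeries.E_qExpansion_coeff _ ⟨3, rfl⟩, e6, PowerSeries.coeff_mk,
    show bernoulli 6 = 1 / 42 by decide +kernel]
  split_ifs
  · simp
  · push_cast
    norm_num

/-- Δ as a modular form of weight 12 -/
noncomputable def Dl : ModularForm 𝒮ℒ 12 := CuspForm.discriminant.toModularFormₗ

lemma Dl_apply (z : ℍ) : Dl z = ModularForm.discriminant z := rfl

lemma Dl_ne_zero (z : ℍ) : Dl z ≠ 0 := discriminant_ne_zero z

lemma qexp_Dl : qExpansion 1 Dl = toC (PowerSeries.X * u) := by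
  have h1 : (1728 : ℂ) • (Dl : ℍ → ℂ) = ((E₄.pow 3 : ℍ → ℂ) - (E₆.pow 2 : ℍ → ℂ)) := by
    ext z
    have := discriminant_eq_E₄_cube_sub_E₆_sq z
    simp only [Pi.smul_apply, Dl_apply, this, Pi.sub_apply, coe_pow, Pi.pow_apply, smul_eq_mul]
    ring
  have h2 := ModularForm.qExpansion_smul (h := 1) one_pos one_mem_strictPeriods_SL (1728 : ℂ) Dl
  rw [h1, ModularForm.qExpansion_sub one_pos one_mem_strictPeriods_SL,
    ModularForm.qExpansion_pow one_pos one_mem_strictPeriods_SL,
    ModularForm.qExpansion_pow one_pos one_mem_strictPeriods_SL, qexp_E4, qexp_E6] at h2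
  rw [← map_pow, ← map_pow, ← map_sub, ← u_spec] at h2
  ext n
  have h3 := congrArg (PowerSeries.coeff n) h2
  rw [coeff_toC, PowerSeries.coeff_smul] at h3
  have e : (1728 : PowerSeries ℚ) = PowerSeries.C (1728 : ℚ) := (map_ofNat PowerSeries.C 1728).symm
  rw [e, PowerSeries.coeff_C_mul] at h3
  rw [coeff_toC]
  push_cast at h3
  simp only [smul_eq_mul] at h3
  have h1728 : (1728 : ℂ) ≠ 0 := by norm_num
  exact (mul_left_cancel₀ h1728 h3).symm

/-- the point `ρ' = 1/2 + i √3/2`. -/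
noncomputable def rho' : ℍ := ⟨⟨1 / 2, √3 / 2⟩, by positivity⟩

lemma rho'_sq : (rho' : ℂ) ^ 2 = rho' - 1 := by
  have h3 : √3 * √3 = 3 := Real.mul_self_sqrt (by norm_num)
  apply Complex.ext
  · simp [rho', pow_two]
    nlinarith
  · simp [rho', pow_two]
    ring

lemma mf_SL (k : ℤ) (f : ModularForm 𝒮ℒ k) (γ : SL(2, ℤ)) (z : ℍ) :
    f (γ • z) = (denom γ z) ^ k * f z := by
  have hγ : (γ : GL (Fin 2) ℝ) ∈ 𝒮ℒ := ⟨γ, rfl⟩
  exact SlashInvariantForm.slash_action_eqn'' f hγ z

lemma E4_rho' : E₄ rho' = 0 := by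
  have h0 : (rho' : ℂ) ≠ 0 := ne_zero rho'
  have hS : E₄ (ModularGroup.S • rho') = (rho' : ℂ) ^ 4 * E₄ rho' := by
    rw [mf_SL 4 E₄, ModularGroup.denom_S]
    norm_cast
  have hT : E₄ (ModularGroup.T • (ModularGroup.S • rho')) = E₄ (ModularGroup.S • rho') := by
    rw [modular_T_smul]
    exact SlashInvariantForm.vAdd_apply_of_mem_strictPeriods E₄ _ one_mem_strictPeriods_SL
  have hfix : ModularGroup.T • (ModularGroup.S • rho') = rho' := by
    apply UpperHalfPlane.ext
    rw [modular_T_smul, modular_S_smul]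
    simp only [coe_vadd]
    push_cast
    have := rho'_sq
    field_simp
    linear_combination -rho'_sq
  rw [hfix, hS] at hT
  have h4 : (rho' : ℂ) ^ 4 = -(rho' : ℂ) := by
    linear_combination ((rho' : ℂ) ^ 2 + rho' ) * rho'_sq
  rw [h4] at hT
  have hne : (rho' : ℂ) ≠ -1 := by
    intro h
    have := congrArg Complex.re h
    simp [rho'] at this
    linarith
  have : (1 + (rho' : ℂ)) * E₄ rho' = 0 := by linear_combination hT
  rcases mul_eq_zero.mp this with h | h
  · exact absurd (by linear_combination h) hne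
  · exact h

noncomputable def v : PowerSeries ℚ := u⁻¹
noncomputable def w : PowerSeries ℚ := e4⁻¹

lemma huv : u * v = 1 := PowerSeries.mul_inv_cancel _ (by rw [coeff0_u]; norm_num)
lemma hew : e4 * w = 1 := PowerSeries.mul_inv_cancel _ (by rw [coeff0_e4]; norm_num)

theorem exists_form (k : ℕ) (hk : k ≤ 112) (b : PowerSeries ℚ) :
    ∃ (g : ModularForm 𝒮ℒ (12 * (k : ℤ))) (G : PowerSeries ℚ), qExpansion 1 g = toC G ∧
      (∀ n ≤ k, G.coeff n = b.coeff n) ∧
      g rho' = (Dl rho') ^ k * ((PowerSeries.coeff k (e6 * w * v ^ k * b) : ℚ) : ℂ) := by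
  induction k generalizing b with
  | zero =>
    refine ⟨ModularForm.mcast (by simp) (((b.coeff 0 : ℚ) : ℂ) • (1 : ModularForm 𝒮ℒ 0)),
      PowerSeries.C (b.coeff 0), ?_, ?_, ?_⟩
    · rw [ModularForm.qExpansion_mcast]
      rw [FunLike.coe_smul, ModularForm.qExpansion_smul one_pos one_mem_strictPeriods_SL]
      ext n
      rw [ModularForm.qExpansion_one, coeff_toC, PowerSeries.coeff_smul, PowerSeries.coeff_one,
        PowerSeries.coeff_C]
      split_ifs <;> simp
    · intro n hn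
      obtain rfl : n = 0 := by omega
      simp
    · have h1 : PowerSeries.coeff 0 (e6 * w * v ^ 0 * b) = b.coeff 0 := by
        have h2 : PowerSeries.constantCoeff w = 1 := by
          have := congrArg PowerSeries.constantCoeff hew
          rw [map_mul, coeff0_e4, one_mul, map_one] at this
          exact this
        rw [PowerSeries.coeff_zero_eq_constantCoeff_apply, map_mul, map_mul, map_mul, coeff0_e6, h2]
        simp
      rw [h1, pow_zero, one_mul]
      show (((b.coeff 0 : ℚ) : ℂ) • (1 : ModularForm 𝒮ℒ 0)) rho' = _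
      show ((b.coeff 0 : ℚ) : ℂ) • ((1 : ModularForm 𝒮ℒ 0) rho') = _
      have : (1 : ModularForm 𝒮ℒ 0) rho' = 1 := rfl
      rw [this]
      simp
  | succ k ih =>
    set b0 : ℚ := b.coeff 0 with hb0
    -- the remainder
    obtain ⟨c, hc⟩ : ∃ c : PowerSeries ℚ,
        b - PowerSeries.C b0 * e4 ^ (3 * (k + 1)) = PowerSeries.X * c := by
      have : (PowerSeries.X : PowerSeries ℚ) ∣ b - PowerSeries.C b0 * e4 ^ (3 * (k + 1)) := by
        rw [PowerSeries.X_dvd_iff]
        rw [map_sub, map_mul, map_pow, coeff0_e4]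
        simp [hb0]
      exact this
    obtain ⟨g, G, hg1, hg2, hg3⟩ := ih (by omega) (c * v)
    have hcast1 : (((3 * (k + 1) : ℕ) : ℤ) * 4) = 12 * ((k + 1 : ℕ) : ℤ) := by push_cast; ring
    have hcast2 : (12 : ℤ) + 12 * (k : ℤ) = 12 * ((k + 1 : ℕ) : ℤ) := by push_cast; ring
    set E := ModularForm.mcast hcast1 (E₄.pow (3 * (k + 1))) with hE
    set H := ModularForm.mcast hcast2 (Dl.mul g) with hH
    refine ⟨(b0 : ℂ) • E + H, PowerSeries.C b0 * e4 ^ (3 * (k + 1)) + PowerSeries.X * u * G,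
      ?_, ?_, ?_⟩
    · rw [FunLike.coe_add, ModularForm.qExpansion_add one_pos one_mem_strictPeriods_SL,
        FunLike.coe_smul, ModularForm.qExpansion_smul one_pos one_mem_strictPeriods_SL, hE, hH,
        ModularForm.qExpansion_mcast, ModularForm.qExpansion_mcast,
        ModularForm.qExpansion_pow one_pos one_mem_strictPeriods_SL,
        ModularForm.qExpansion_mul one_pos one_mem_strictPeriods_SL, hg1, qexp_Dl, qexp_E4]
      simp only [map_add, map_mul, map_pow]
      congr 1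
      rw [PowerSeries.smul_eq_C_mul]
      congr 1
      simp [toC]
    · intro n hn
      cases n with
      | zero =>
        simp [coeff0_e4, hb0]
      | succ n =>
        have h1 : PowerSeries.coeff (n + 1) (PowerSeries.X * u * G) =
            PowerSeries.coeff n (u * G) := by
          rw [mul_assoc, PowerSeries.coeff_succ_X_mul]
        have h2 : PowerSeries.coeff n (u * G) = PowerSeries.coeff n (u * (c * v)) := by
          rw [PowerSeries.coeff_mul, PowerSeries.coeff_mul]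
          refine Finset.sum_congr rfl fun p hp => ?_
          rw [hg2 p.2 (by have := Finset.HasAntidiagonal.mem_antidiagonal.mp hp; omega)]
        have h3 : u * (c * v) = c := by linear_combination c * huv
        have h4 := congrArg (PowerSeries.coeff (n + 1)) hc
        rw [PowerSeries.coeff_succ_X_mul, map_sub] at h4
        rw [map_add, h1, h2, h3, ← h4]
        ring
    · have e1 : ((b0 : ℂ) • E + H) rho' = (b0 : ℂ) * (E₄ rho') ^ (3 * (k + 1)) + Dl rho' * g rho' := by
        show ((b0 : ℂ) • E) rho' + H rho' = _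
        have e2 : ((b0 : ℂ) • E) rho' = (b0 : ℂ) * E rho' := rfl
        have e3 : E rho' = (E₄ rho') ^ (3 * (k + 1)) := by
          rw [hE]
          show (E₄.pow (3 * (k + 1))) rho' = _
          rw [coe_pow]
          rfl
        have e4 : H rho' = Dl rho' * g rho' := rfl
        rw [e2, e3, e4]
      have hz : PowerSeries.coeff (k + 1) (e6 * w * (e4 ^ 3 * v) ^ (k + 1)) = 0 :=
        coeff_vanish huv hew u_spec dvd_RC (by omega) (by omega)
      have hb : b = PowerSeries.C b0 * e4 ^ (3 * (k + 1)) + PowerSeries.X * c := by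
        linear_combination hc
      have key : e6 * w * v ^ (k + 1) * b = PowerSeries.C b0 * (e6 * w * (e4 ^ 3 * v) ^ (k + 1)) +
          PowerSeries.X * (e6 * w * v ^ k * (c * v)) := by
        rw [hb]
        ring
      rw [e1, E4_rho', hg3, key, map_add, PowerSeries.coeff_C_mul, hz,
        PowerSeries.coeff_succ_X_mul]
      simp
      ring

lemma int_form_ge_one (p c : ℤ) (h : p ≠ 0 ∨ c ≠ 0) (x : ℝ) (h1 : -(1 / 2) ≤ x) (h2 : x ≤ 0) :
    1 ≤ (p : ℝ) ^ 2 - 2 * p * c * x + (c : ℝ) ^ 2 := by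
  have hint : 1 ≤ p ^ 2 + c ^ 2 - |p * c| := by
    have h5 : 0 < p ^ 2 + c ^ 2 - |p * c| := by
      have h3 : |p * c| = |p| * |c| := abs_mul p c
      rw [h3, ← sq_abs p, ← sq_abs c]
      have : 0 < |p| ∨ 0 < |c| := by
        rcases h with h | h
        · left; exact abs_pos.mpr h
        · right; exact abs_pos.mpr h
      have hp := abs_nonneg p
      have hc := abs_nonneg c
      rcases this with h | h <;> nlinarith [sq_nonneg (|p| - |c|), mul_nonneg hp hc]
    linarith
  have hreal : (1 : ℝ) ≤ (p : ℝ) ^ 2 + (c : ℝ) ^ 2 - |(p : ℝ) * c| := by exact_mod_cast hint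
  have h4 : - |(p : ℝ) * c| ≤ - (2 * p * c * x) := by
    have h5 := le_abs_self ((p : ℝ) * c)
    have h6 := neg_abs_le ((p : ℝ) * c)
    nlinarith [abs_nonneg ((p : ℝ) * c)]
  nlinarith

lemma not_onArc {τ : ℍ} (hre : τ.re = 1 / 2) (him : √3 / 2 < τ.im) : ¬ OnArc τ := by
  rintro ⟨γ, θ, hθ, h⟩
  set a : ℂ := ((γ • τ : ℍ) : ℂ) with ha
  have hs : 3 / 4 < τ.im ^ 2 := by
    have h3 : √3 ^ 2 = 3 := Real.sq_sqrt (by norm_num)
    have h4 : (0:ℝ) ≤ √3 := Real.sqrt_nonneg _
    nlinarith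
  have hax : a.re = Real.cos θ := by rw [h, Complex.exp_ofReal_mul_I_re]
  have hay : a.im = Real.sin θ := by rw [h, Complex.exp_ofReal_mul_I_im]
  have hnorm : a.re ^ 2 + a.im ^ 2 = 1 := by
    rw [hax, hay]
    exact Real.cos_sq_add_sin_sq θ
  have hre0 : a.re ≤ 0 := by
    rw [hax]
    exact Real.cos_nonpos_of_pi_div_two_le_of_le hθ.1 (by linarith [hθ.2, Real.pi_pos])
  have hre1 : -(1 / 2) ≤ a.re := by
    rw [hax]
    have h1 : Real.cos (2 * π / 3) = -(1 / 2) := by
      have : 2 * π / 3 = π - π / 3 := by ring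
      rw [this, Real.cos_pi_sub, Real.cos_pi_div_three]
    rw [← h1]
    exact Real.cos_le_cos_of_nonneg_of_le_pi (by linarith [hθ.1, Real.pi_pos])
      (by linarith [Real.pi_pos]) hθ.2
  set p : ℤ := γ 0 0 with hp
  set q : ℤ := γ 0 1 with hq
  set c : ℤ := γ 1 0 with hc
  set d : ℤ := γ 1 1 with hd
  have hdet : p * d - q * c = 1 := by
    have := γ.det_coe
    rw [Matrix.det_fin_two] at this
    exact this
  have hdetR : (p : ℝ) * d - q * c = 1 := by exact_mod_cast hdet
  have hform : a = ((p : ℂ) * τ + q) / ((c : ℂ) * τ + d) := by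
    rw [ha, coe_specialLinearGroup_apply]
    simp [hp, hq, hc, hd]
  have hτre : (τ : ℂ).re = 1 / 2 := hre
  have hτim : (τ : ℂ).im = τ.im := rfl
  have hden : ((c : ℂ) * τ + d) ≠ 0 := by
    intro h0
    have him0 := congrArg Complex.im h0
    have hre0 := congrArg Complex.re h0
    simp at him0 hre0
    rcases him0 with h1 | h1
    · rw [h1] at hre0
      simp at hre0
      rw [h1, hre0] at hdet
      simp at hdet
    · exact absurd h1 τ.im_ne_zero
  have hmul : a * ((c : ℂ) * τ + d) = (p : ℂ) * τ + q := by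
    rw [hform, div_mul_cancel₀ _ hden]
  -- real and imaginary parts
  have h1re := congrArg Complex.re hmul
  have h1im := congrArg Complex.im hmul
  simp only [Complex.mul_re, Complex.mul_im, Complex.add_re, Complex.add_im, Complex.intCast_re,
    Complex.intCast_im, hτre, hτim] at h1re h1im
  set t : ℝ := τ.im with ht
  have hprod : ((p : ℝ) ^ 2 - 2 * p * c * a.re + (c : ℝ) ^ 2) *
      (((c : ℝ) / 2 + d) ^ 2 + (c : ℝ) ^ 2 * t ^ 2) = 1 := by
    have hc1 : ((p : ℂ) - c * a) * ((c : ℂ) * τ + d) = 1 := by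
      have hdetC : (p : ℂ) * d - q * c = 1 := by exact_mod_cast hdet
      linear_combination (-(c : ℂ)) * hmul + hdetC
    have hc2 := congrArg Complex.normSq hc1
    rw [map_mul, map_one, Complex.normSq_apply, Complex.normSq_apply] at hc2
    simp only [Complex.mul_re, Complex.mul_im, Complex.add_re, Complex.add_im, Complex.intCast_re,
      Complex.intCast_im, hτre, hτim, Complex.sub_re, Complex.sub_im] at hc2
    rw [← hc2]
    have e1 : (p : ℝ) ^ 2 - 2 * p * c * a.re + (c : ℝ) ^ 2 =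
      (p - (c * a.re - 0 * a.im)) * (p - (c * a.re - 0 * a.im)) +
        (0 - (c * a.im + 0 * a.re)) * (0 - (c * a.im + 0 * a.re)) := by
      linear_combination (-(c : ℝ) ^ 2) * hnorm
    rw [e1]
    ring
  have hA := int_form_ge_one p c (by
    by_contra hcon
    push Not at hcon
    rw [hcon.1, hcon.2] at hdet
    simp at hdet) a.re hre1 hre0
  by_cases hc0 : c = 0
  · rw [hc0] at hdet
    have hpd : p * d = 1 := by linarith
    have hp2 : p ^ 2 = 1 := by
      rcases Int.eq_one_or_neg_one_of_mul_eq_one hpd with h | h <;> rw [h] <;> norm_num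
    have hd2 : d ^ 2 = 1 := by
      rw [mul_comm] at hpd
      rcases Int.eq_one_or_neg_one_of_mul_eq_one hpd with h | h <;> rw [h] <;> norm_num
    have hp2R : (p : ℝ) ^ 2 = 1 := by exact_mod_cast hp2
    have hd2R : (d : ℝ) ^ 2 = 1 := by exact_mod_cast hd2
    rw [hc0] at h1re h1im
    simp at h1re h1im
    have hq3 : 0 ≤ q * (q + p) := by
      rcases Int.eq_one_or_neg_one_of_mul_eq_one hpd with h | h
      · rw [h]
        by_cases hq0 : 0 ≤ q
        · positivity
        · nlinarith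
      · rw [h]
        by_cases hq0 : q ≤ 0
        · nlinarith
        · nlinarith
    have hq3R : (0 : ℝ) ≤ q * (q + p) := by exact_mod_cast hq3
    have e2 : (a.re * d) ^ 2 + (a.im * d) ^ 2 = 1 := by
      have : (a.re * d) ^ 2 + (a.im * d) ^ 2 = (a.re ^ 2 + a.im ^ 2) * (d : ℝ) ^ 2 := by ring
      rw [this, hnorm, hd2R, one_mul]
    rw [h1re, h1im] at e2
    nlinarith
  · have hB : 1 < ((c : ℝ) / 2 + d) ^ 2 + (c : ℝ) ^ 2 * t ^ 2 := by
      have hc2 : (1 : ℝ) ≤ (c : ℝ) ^ 2 := by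
        have : 1 ≤ c ^ 2 := by
          have := sq_pos_of_ne_zero hc0
          linarith
        exact_mod_cast this
      have h3 : (1 : ℝ) ≤ (c : ℝ) ^ 2 + c * d + (d : ℝ) ^ 2 := by
        have := int_form_ge_one c d (Or.inl hc0) (-(1/2)) le_rfl (by norm_num)
        linarith
      nlinarith
    nlinarith

lemma qParam_real {τ : ℍ} (hre : τ.re = 1 / 2) :
    Function.Periodic.qParam 1 (τ : ℂ) = ((-Real.exp (-2 * π * τ.im) : ℝ) : ℂ) := by
  have h1 : (τ : ℂ) = ((1 / 2 : ℝ) : ℂ) + τ.im * Complex.I := by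
    rw [← hre]
    exact (Complex.re_add_im (τ : ℂ)).symm
  rw [Function.Periodic.qParam, h1]
  have h2 : 2 * (π : ℂ) * Complex.I * (((1 / 2 : ℝ) : ℂ) + τ.im * Complex.I) / ((1 : ℝ) : ℂ) =
      π * Complex.I + ((-2 * π * τ.im : ℝ) : ℂ) := by
    push_cast
    linear_combination (2 * (π : ℂ) * τ.im) * Complex.I_sq
  rw [h2, Complex.exp_add, Complex.exp_pi_mul_I]
  push_cast
  ring

lemma im_eq_zero {k : ℤ} (f : ModularForm 𝒮ℒ k) {G : PowerSeries ℚ} (hG : qExpansion 1 f = toC G)
    {τ : ℍ} (hre : τ.re = 1 / 2) : (f τ).im = 0 := by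
  have h := ModularForm.hasSum_qExpansion (f := f) one_pos one_mem_strictPeriods_SL τ
  rw [hG] at h
  have h2 : HasSum (fun m => Complex.imCLM ((toC G).coeff m * Function.Periodic.qParam 1 (τ : ℂ) ^ m))
      (Complex.imCLM (f τ)) := Complex.imCLM.hasSum h
  have h3 : (fun m => Complex.imCLM ((toC G).coeff m * Function.Periodic.qParam 1 (τ : ℂ) ^ m)) =
      fun _ => 0 := by
    funext m
    rw [qParam_real hre, coeff_toC]
    have : ((G.coeff m : ℚ) : ℂ) * ((-Real.exp (-2 * π * τ.im) : ℝ) : ℂ) ^ m =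
        (((G.coeff m : ℚ) : ℝ) * (-Real.exp (-2 * π * τ.im)) ^ m : ℝ) := by
      push_cast
      ring
    rw [this]
    exact Complex.ofReal_im (((G.coeff m : ℚ) : ℝ) * (-Real.exp (-2 * π * τ.im)) ^ m)
  rw [h3] at h2
  exact h2.unique hasSum_zero

lemma tendsto_coeff_zero {k : ℤ} (f : ModularForm 𝒮ℒ k) :
    Tendsto (fun τ : ℍ => f τ) atImInfty (𝓝 ((qExpansion 1 f).coeff 0)) := by
  have han := ModularFormClass.analyticAt_cuspFunction_zero f one_pos one_mem_strictPeriods_SL
  have h1 : (qExpansion 1 f).coeff 0 = cuspFunction 1 f 0 := by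
    simp [qExpansion_coeff]
  rw [h1]
  exact (han.continuousAt.tendsto.comp (qParam_tendsto_atImInfty one_pos)).congr
    (fun τ ↦ SlashInvariantFormClass.eq_cuspFunction f τ one_mem_strictPeriods_SL one_ne_zero)

/-- the intermediate value argument on the line `Re τ = 1/2`. -/
lemma exists_zero {k : ℤ} (f : ModularForm 𝒮ℒ k) {G : PowerSeries ℚ} (hG : qExpansion 1 f = toC G)
    (h0 : G.coeff 0 = 1) (rho' : ℍ) (hrho : (rho' : ℂ) = ⟨1 / 2, √3 / 2⟩) (hneg : (f rho').re < 0) :
    ∃ τ : ℍ, τ.re = 1 / 2 ∧ √3 / 2 < τ.im ∧ f τ = 0 := by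
  have hT := tendsto_coeff_zero f
  rw [hG, coeff_toC, h0] at hT
  have hev : ∀ᶠ τ : ℍ in atImInfty, 0 < (f τ).re := by
    have h1 : Tendsto (fun τ : ℍ => (f τ).re) atImInfty (𝓝 ((((1 : ℚ) : ℂ)).re)) :=
      (Complex.continuous_re.tendsto _).comp hT
    refine h1.eventually_const_lt ?_
    simp
  obtain ⟨A, hA⟩ := (atImInfty_mem _).mp hev
  set T : ℝ := max A 1 with hTdef
  have hT1 : 1 ≤ T := le_max_right _ _
  have hs3 : √3 / 2 < 1 := by
    have h3 : √3 ^ 2 = 3 := Real.sq_sqrt (by norm_num)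
    have h4 : (0:ℝ) ≤ √3 := Real.sqrt_nonneg _
    nlinarith
  have hs0 : 0 < √3 / 2 := by positivity
  let P : ℝ → ℂ := fun t => ⟨1 / 2, t⟩
  have hPc : Continuous P := by
    have : P = fun t : ℝ => ((1 / 2 : ℝ) : ℂ) + t * Complex.I := by
      funext t
      apply Complex.ext <;> simp [P]
    rw [this]
    fun_prop
  have hcont : ContinuousOn (fun t : ℝ => ((f ∘ ofComplex) (P t)).re) (Set.Icc (√3 / 2) T) := by
    have h1 : DifferentiableOn ℂ (f ∘ ofComplex) {z : ℂ | 0 < z.im} :=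
      UpperHalfPlane.mdifferentiable_iff.mp f.holo'
    refine Complex.continuous_re.comp_continuousOn ?_
    refine h1.continuousOn.comp hPc.continuousOn ?_
    intro t ht
    show 0 < (P t).im
    exact lt_of_lt_of_le hs0 ht.1
  have hval : ∀ t : ℝ, ∀ ht : 0 < t, (f ∘ ofComplex) (P t) = f ⟨P t, ht⟩ := by
    intro t ht
    rw [Function.comp_apply, ofComplex_apply_of_im_pos]
  have hsub := intermediate_value_Icc (by linarith : √3 / 2 ≤ T) hcont
  have hmem : (0 : ℝ) ∈ Set.Icc ((f ∘ ofComplex) (P (√3 / 2))).re ((f ∘ ofComplex) (P T)).re := by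
    constructor
    · rw [hval _ hs0]
      have : (⟨P (√3 / 2), hs0⟩ : ℍ) = rho' := by
        apply UpperHalfPlane.ext
        rw [hrho]
      rw [this]
      exact hneg.le
    · rw [hval _ (by linarith)]
      exact (hA _ (le_max_left _ _)).le
  obtain ⟨t, ht, ht0⟩ := hsub hmem
  have htpos : 0 < t := lt_of_lt_of_le hs0 ht.1
  simp only at ht0
  rw [hval t htpos] at ht0
  refine ⟨⟨P t, htpos⟩, rfl, ?_, ?_⟩
  · refine lt_of_le_of_ne ht.1 ?_
    intro heq
    have heq' : √3 / 2 = t := heq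
    have : (⟨P t, htpos⟩ : ℍ) = rho' := by
      apply UpperHalfPlane.ext
      rw [hrho, heq']
    rw [this] at ht0
    linarith
  · apply Complex.ext
    · exact ht0
    · exact im_eq_zero f hG rfl


theorem miller_304 : ∃ f : ModularForm 𝒮ℒ (12 * ((304 : ℕ) : ℤ)), IsMiller 304 192 f ∧
    HasZeroOffArc f := by
  obtain ⟨g, G, hg1, hg2, hg3⟩ := exists_form 112 le_rfl (v ^ 192)
  have hG0 : G.coeff 0 = 1 := by
    rw [hg2 0 (by norm_num), PowerSeries.coeff_zero_eq_constantCoeff_apply, map_pow]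
    have h2 : PowerSeries.constantCoeff v = 1 := by
      have := congrArg PowerSeries.constantCoeff huv
      rw [map_mul, coeff0_u, one_mul, map_one] at this
      exact this
    rw [h2, one_pow]
  have hW := coeff_W_neg huv hew
  have hcoef : PowerSeries.coeff 112 (e6 * w * v ^ 112 * v ^ 192) =
      PowerSeries.coeff 112 (e6 * w * v ^ 304) := by
    congr 1
    ring
  rw [hcoef] at hg3
  -- the value at rho'
  have hneg : (g rho').re < 0 := by
    have him : (Dl rho').im = 0 := im_eq_zero Dl qexp_Dl rfl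
    have hD : Dl rho' = (((Dl rho').re : ℝ) : ℂ) := by
      apply Complex.ext
      · simp
      · simpa using him
    have hDne : (Dl rho').re ≠ 0 := by
      intro h0
      rw [h0] at hD
      exact Dl_ne_zero rho' (by simpa using hD)
    have hpos : 0 < (Dl rho').re ^ 112 := by
      have : Even 112 := by decide
      exact this.pow_pos hDne
    set c := PowerSeries.coeff 112 (e6 * w * v ^ 304) with hc
    have hval : g rho' = (((Dl rho').re ^ 112 * (c : ℝ) : ℝ) : ℂ) := by
      rw [hg3, hD]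
      push_cast
      simp
    rw [hval, Complex.ofReal_re]
    have hcR : (c : ℝ) < 0 := by exact_mod_cast hW
    exact mul_neg_of_pos_of_neg hpos hcR
  obtain ⟨τ, hre, him, hzero⟩ := exists_zero g hg1 hG0 rho' rfl hneg
  have hcast : ((192 : ℕ) : ℤ) * 12 + 12 * ((112 : ℕ) : ℤ) = 12 * ((304 : ℕ) : ℤ) := by norm_num
  refine ⟨ModularForm.mcast hcast ((Dl.pow 192).mul g), ?_, τ, ?_, not_onArc hre him⟩
  · intro n hn
    rw [ModularForm.qExpansion_mcast, ModularForm.qExpansion_mul one_pos one_mem_strictPeriods_SL,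
      ModularForm.qExpansion_pow one_pos one_mem_strictPeriods_SL, hg1, qexp_Dl, ← map_pow,
      ← map_mul, coeff_toC]
    have e1 : (PowerSeries.X * u) ^ 192 * G = PowerSeries.X ^ 192 * (u ^ 192 * G) := by ring
    rw [e1, PowerSeries.coeff_X_pow_mul']
    split_ifs with h1 h2 h2
    · rw [h2]
      simp only [Nat.sub_self]
      rw [PowerSeries.coeff_zero_eq_constantCoeff_apply, map_mul, map_pow, coeff0_u,
        ← PowerSeries.coeff_zero_eq_constantCoeff_apply, hG0]
      simp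
    · obtain ⟨j, hj⟩ : ∃ j, n = 192 + j := ⟨n - 192, by omega⟩
      have hj1 : j ≤ 112 := by omega
      have hj2 : j ≠ 0 := by omega
      have e2 : n - 192 = j := by omega
      rw [e2]
      have e3 : PowerSeries.coeff j (u ^ 192 * G) = PowerSeries.coeff j (u ^ 192 * v ^ 192) := by
        rw [PowerSeries.coeff_mul, PowerSeries.coeff_mul]
        refine Finset.sum_congr rfl fun p hp => ?_
        rw [hg2 p.2 (by have := Finset.HasAntidiagonal.mem_antidiagonal.mp hp; omega)]
      have e4 : u ^ 192 * v ^ 192 = 1 := by rw [← mul_pow, huv, one_pow]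
      rw [e3, e4, PowerSeries.coeff_one, if_neg hj2]
      simp
    · omega
    · simp
  · show ((Dl.pow 192).mul g) τ = 0
    show (Dl.pow 192) τ * g τ = 0
    rw [hzero, mul_zero]

theorem miller_unique {ℓ m : ℕ} {f g : ModularForm 𝒮ℒ (12 * (ℓ : ℤ))} (hf : IsMiller ℓ m f)
    (hg : IsMiller ℓ m g) : f = g := by
  have h : f - g = 0 := by
    apply ModularForm.sturm_bound_levelOne
    have h1 : (12 * (ℓ : ℤ)).toNat / 12 = ℓ := by omega
    rw [h1]
    rw [FunLike.coe_sub, ModularForm.qExpansion_sub one_pos one_mem_strictPeriods_SL]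
    refine lt_of_lt_of_le (b := ((ℓ + 1 : ℕ) : ℕ∞)) (by exact_mod_cast Nat.lt_succ_self ℓ) ?_
    apply PowerSeries.nat_le_order
    intro i hi
    rw [map_sub, hf i (by omega), hg i (by omega), sub_self]
  exact sub_eq_zero.mp h

/-- The Miller basis form `f_{12·304,192}` has a zero off the arc although
`192 < 194 = 10 · 19 + 4`; hence the assertion of Q1 is false. -/
theorem result :
    (∃ f : ModularForm 𝒮ℒ (12 * ((304 : ℕ) : ℤ)), IsMiller 304 192 f ∧
      (∀ g : ModularForm 𝒮ℒ (12 * ((304 : ℕ) : ℤ)), IsMiller 304 192 g → g = f) ∧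
      HasZeroOffArc f) ∧ ¬ Q1 := by
  obtain ⟨f, hf, hz⟩ := miller_304
  refine ⟨⟨f, hf, fun g hg => miller_unique hg hf, hz⟩, fun hQ => ?_⟩
  have h := (hQ 304 (by norm_num)).1.2 (show 192 ∈ {m : ℕ | m ≤ 304 ∧ MillerOffArc 304 m} from
    ⟨by norm_num, f, hf, hz⟩)
  have h2 : tbl (304 % 16) = 4 := by decide
  rw [h2] at h
  omega

end Pool.Agent.Results.MP_86f038_nt.FailsAt304
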